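import Pool.Agent.Q55.Nr.NDefs
import Pool.Agent.W552.Defs
import Pool.Agent.Q55.ZeroOneDefs

/-!
# Cycles on `X^(2n)` which are invariant under the permutations of the `n` pairs of factors
-/

open CategoryTheory AlgebraicGeometry

universe u v

namespace Pool.Agent.Q55.Sy

open Pool.Agent.H914 Pool.Agent.H914.VarClass Pool.Agent.H914.VarClass.Obj
open Pool.Agent.Y133.Half (pw prj tau)
open Pool.Agent.Q55 (pwDiv)
open Pool.Agent.W552 (HodgeTypeOn)
open Pool.Agent.Q55.Nr (NumTriv NumHodge NumHodgeOn)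

lemma pairing_aux (n : ℕ) : (n + 1) * 2 = 2 * n + 1 + 1 := by ring

/-- The numbering of the factors of `(X × X)^(n + 1) = X^(2 n + 2)`: the factors `2 i` and `2 i + 1`
form the pair `i`. -/
def pairing (n : ℕ) : Fin (n + 1) × Bool ≃ Fin (2 * n + 1 + 1) :=
  ((Equiv.refl _).prodCongr finTwoEquiv.symm).trans (finProdFinEquiv.trans (finCongr (pairing_aux n)))

/-- The permutation of the factors of `X^(2 n + 2)` given by a permutation of the pairs. -/
def pairPerm (n : ℕ) (σ : Equiv.Perm (Fin (n + 1))) : Equiv.Perm (Fin (2 * n + 1 + 1)) :=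
  ((pairing n).symm.trans (σ.prodCongr (Equiv.refl Bool))).trans (pairing n)

variable {k : Type u} [Field k] {𝒱 : VarClass k} (ops : CycleOps 𝒱)

/-- The cycles on `(X × X)^(n + 1) = X^(2 n + 2)` whose classes modulo numerical equivalence are
invariant under the permutations of the `n + 1` factors `X × X`: the cycles modulo numerical
equivalence on the symmetric power `Sym^(n + 1) (X × X)`. -/
def symCycles (X : 𝒱.Obj) (n : ℕ) : Set (pw X (2 * n + 1)).Cycles :=
  {z | ∀ j, (pw X (2 * n + 1)).IsCyc j z → ∀ σ : Equiv.Perm (Fin (n + 1)),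
    NumTriv ops (pw X (2 * n + 1)) j (ops.pull (tau X (2 * n + 1) (pairPerm n σ)) z - z)}

/-- The cohomology classes on `(X × X)^(n + 1) = X^(2 n + 2)` which are invariant under the
permutations of the `n + 1` factors `X × X`: the cohomology of `Sym^(n + 1) (X × X)`. -/
noncomputable def symClasses {ops : CycleOps 𝒱} (W : WeilCohomology.{u, v} ops) (X : 𝒱.Obj)
    (n : ℕ) : Submodule W.K (W.H (pw X (2 * n + 1))) :=
  ⨅ σ : Equiv.Perm (Fin (n + 1)),
    LinearMap.eqLocus (W.map (tau X (2 * n + 1) (pairPerm n σ))).toLinearMap LinearMap.id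

lemma mem_symClasses {ops : CycleOps 𝒱} {W : WeilCohomology.{u, v} ops} {X : 𝒱.Obj} {n : ℕ}
    {c : W.H (pw X (2 * n + 1))} : c ∈ symClasses W X n ↔
      ∀ σ : Equiv.Perm (Fin (n + 1)), W.map (tau X (2 * n + 1) (pairPerm n σ)) c = c := by
  rw [symClasses, Submodule.mem_iInf]
  exact Iff.rfl

/-- The conjecture of Hodge type for all powers of `X`. -/
def HodgeAll {ops : CycleOps 𝒱} (W : WeilCohomology.{u, v} ops) (X : 𝒱.Obj) (D : X.Cycles) :
    Prop := ∀ m, HodgeType W (pw X m) (pwDiv ops D m)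

/-- The conjecture of Hodge type for all symmetric powers of `X × X`. -/
def HodgeSym {ops : CycleOps 𝒱} (W : WeilCohomology.{u, v} ops) (X : 𝒱.Obj) (D : X.Cycles) :
    Prop := ∀ n, HodgeTypeOn W (pw X (2 * n + 1)) (pwDiv ops D (2 * n + 1)) (symClasses W X n)

/-- The numerical conjecture of Hodge type for all powers of `X`. -/
def NumHodgeAll (X : 𝒱.Obj) (D : X.Cycles) : Prop :=
  ∀ m, NumHodge ops (pw X m) (pwDiv ops D m)

/-- The numerical conjecture of Hodge type for all symmetric powers of `X × X`. -/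
def NumHodgeSym (X : 𝒱.Obj) (D : X.Cycles) : Prop :=
  ∀ n, NumHodgeOn ops (pw X (2 * n + 1)) (pwDiv ops D (2 * n + 1)) (symCycles ops X n)

end Pool.Agent.Q55.Sy
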