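import Pool.Agent.Q55.Sy.Pos
import Pool.Agent.Q55.Sy.Defs
import Pool.Agent.Q55.Nr.NGeo
import Pool.Agent.Q55.Hs.Block
import Pool.Agent.Q55.Fin.Perm

/-!
# Symmetric powers of `X × X` and the numerical Hodge standard conjecture
-/

open CategoryTheory AlgebraicGeometry Finset

set_option linter.unusedSectionVars false

universe u v

namespace Pool.Agent.Q55.Sy

open Pool.Agent.H914 Pool.Agent.H914.VarClass Pool.Agent.H914.VarClass.Obj
  Pool.Agent.H914.WeilCohomology Pool.Agent.H281R3.HT Pool.Agent.H447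
open Pool.Agent.W552 (AS)
open Pool.Agent.Q60.NP Pool.Agent.Q60.TD Pool.Agent.Y133.Half
open Pool.Agent.Q55 Pool.Agent.Q55.Nr Pool.Agent.Q55.Hs Pool.Agent.Q56.SP

variable {k : Type u} [Field k] {𝒱 : VarClass k} {ops : CycleOps 𝒱}
  {W : WeilCohomology.{u, v} ops} {X Y Z : 𝒱.Obj}

/-! ## Orientation and permutations -/

/-- The product of the pull-backs of an even class. -/
noncomputable def boxPow (W : WeilCohomology.{u, v} ops) (X : 𝒱.Obj) (n : ℕ) (ω : W.H X) :
    W.H (pw X n) := (List.ofFn fun i => W.map (prj X n i) ω).prod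

lemma boxPow_succ (n : ℕ) (ω : W.H X) : boxPow W X (n + 1) ω =
    W.map (pfst X n) (boxPow W X n ω) * W.map (psnd X n) ω := by
  rw [boxPow, boxPow, List.ofFn_succ', List.prod_concat, map_list_prod, List.map_ofFn, prj_last]
  congr 2
  congr 1
  funext i
  rw [Function.comp_apply, prj_castSucc, W.map_comp]

lemma boxPow_zero (ω : W.H X) : boxPow W X 0 ω = ω := by
  rw [boxPow, List.ofFn_succ, List.prod_cons, List.ofFn_zero, List.prod_nil, mul_one, prj_zero]
  exact W.map_id _ _

lemma boxPow_mem {ω : W.H X} (hω : ω ∈ W.gr X (2 * X.dim)) : ∀ n,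
    boxPow W X n ω ∈ W.gr (pw X n) (2 * (pw X n).dim)
  | 0 => by rw [boxPow_zero]; exact hω
  | n + 1 => by
    rw [boxPow_succ]
    have h1 := W.mul_mem (W.map_mem (pfst X n) (boxPow_mem hω n)) (W.map_mem (psnd X n) hω)
    change _ ∈ W.gr (pw X (n + 1)) (2 * ((pw X n).dim + X.dim))
    rwa [mul_add]

lemma boxPow_tr (ω : W.H X) : ∀ n, W.tr (pw X n) (boxPow W X n ω) = (W.tr X ω) ^ (n + 1)
  | 0 => by rw [boxPow_zero, zero_add, pow_one]; rfl
  | n + 1 => by
    rw [boxPow_succ]
    refine (W.tr_prod _ _).trans ?_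
    rw [boxPow_tr ω n, pow_succ _ (n + 1)]

lemma tau_boxPow {ω : W.H X} (hω : ω ∈ PH W X 0) (n : ℕ) (σ : Equiv.Perm (Fin (n + 1))) :
    W.map (tau X n σ) (boxPow W X n ω) = boxPow W X n ω := by
  rw [boxPow, map_list_prod, List.map_ofFn]
  have h1 : (W.map (tau X n σ)) ∘ (fun i => W.map (prj X n i) ω) =
      (fun i => W.map (prj X n i) ω) ∘ σ := by
    funext i
    rw [Function.comp_apply, Function.comp_apply, ← W.map_comp, tau_prj]
  rw [h1]
  refine Pool.Agent.Q55.Fin.prod_perm_even (σ.ofFn_comp_perm _) ?_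
  intro x hx
  rw [List.mem_ofFn] at hx
  obtain ⟨i, rfl⟩ := hx
  exact PH.map _ hω

/-- Permutations preserve the orientation. -/
lemma tr_tau {ω : W.H X} (hω : ω ∈ W.gr X (2 * X.dim)) (h0 : W.tr X ω ≠ 0) (n : ℕ)
    (σ : Equiv.Perm (Fin (n + 1))) (x : W.H (pw X n)) :
    W.tr (pw X n) (W.map (tau X n σ) x) = W.tr (pw X n) x := by
  have h1 := tr_map_of_top (φ := tau X n σ) (b := boxPow W X n ω) (boxPow_mem hω n)
    (by rw [boxPow_tr]; exact pow_ne_zero _ h0) (δ := 1)
    (by rw [tau_boxPow (PH.congr (by simp) (PH.of hω)), one_smul]) x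
  rwa [one_mul] at h1

/-- The symmetric divisor. -/
lemma cl_pwDiv (D : X.Cycles) : ∀ n, W.cl (pw X n) (pwDiv ops D n) =
    ∑ i, W.map (prj X n i) (W.cl X D)
  | 0 => by
    rw [Fin.sum_univ_succ, Fin.sum_univ_zero, add_zero, prj_zero]
    exact (W.map_id _ _).symm
  | n + 1 => by
    rw [Fin.sum_univ_castSucc, prj_last]
    have h1 : W.cl (pw X (n + 1)) (pwDiv ops D (n + 1)) =
        W.map (pfst X n) (W.cl (pw X n) (pwDiv ops D n)) + W.map (psnd X n) (W.cl X D) := by
      exact (map_add (W.cl ((pw X n).prod X)) (ops.pull (fst (pw X n) X) (pwDiv ops D n))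
        (ops.pull (snd (pw X n) X) D)).trans (congrArg₂ (· + ·) (W.cl_pull _ _) (W.cl_pull _ _))
    rw [h1, cl_pwDiv D n, map_sum]
    congr 1
    refine Finset.sum_congr rfl fun i _ => ?_
    rw [prj_castSucc, W.map_comp]

lemma tau_pwDiv (D : X.Cycles) (n : ℕ) (σ : Equiv.Perm (Fin (n + 1))) :
    W.map (tau X n σ) (W.cl (pw X n) (pwDiv ops D n)) = W.cl (pw X n) (pwDiv ops D n) := by
  rw [cl_pwDiv, map_sum]
  refine Fintype.sum_equiv σ _ _ fun i => ?_
  rw [← W.map_comp, tau_prj]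

/-! ## Trivial classes -/

/-- A system of trivial classes: zero, or the numerically trivial classes. -/
structure TrivSys (W : WeilCohomology.{u, v} ops) (T : ∀ Z : 𝒱.Obj, Submodule W.K (W.H Z)) :
    Prop where
  map : ∀ {Y Z : 𝒱.Obj} (f : Y ⟶ Z), ∀ c ∈ T Z, W.map f c ∈ T Y
  push : ∀ {Y Z : 𝒱.Obj} (f : Y ⟶ Z), ∀ c ∈ T Y, W.push f c ∈ T Z
  mul : ∀ {Z : 𝒱.Obj}, ∀ c ∈ T Z, ∀ d ∈ algSpan W Z, c * d ∈ T Z
  mul' : ∀ {Z : 𝒱.Obj}, ∀ c ∈ T Z, ∀ d ∈ algSpan W Z, d * c ∈ T Z
  tr : ∀ {Z : 𝒱.Obj}, ∀ c ∈ T Z, W.tr Z c = 0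

lemma trivSys_num : TrivSys W (fun Z => (algSys W).Num Z) where
  map f _ hc := Sys.Num.map f hc
  push f _ hc := Sys.Num.push f hc
  mul _ hc _ hd := Sys.Num.mul hc hd
  mul' _ hc _ hd := Sys.Num.mul' hd hc
  tr {Z} c hc := by
    have h2 := hc.2 1 ((algSys W).one Z)
    rwa [mul_one] at h2

lemma trivSys_bot : TrivSys W (fun _ => ⊥) where
  map f c hc := by rw [(Submodule.mem_bot _).1 hc, map_zero]; exact Submodule.zero_mem _
  push f c hc := by rw [(Submodule.mem_bot _).1 hc, map_zero]; exact Submodule.zero_mem _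
  mul c hc d _ := by rw [(Submodule.mem_bot _).1 hc, zero_mul]; exact Submodule.zero_mem _
  mul' c hc d _ := by rw [(Submodule.mem_bot _).1 hc, mul_zero]; exact Submodule.zero_mem _
  tr c hc := by rw [(Submodule.mem_bot _).1 hc, map_zero]

/-- Positivity modulo the trivial classes, for the cycles in the set `S`. -/
def HodgeMod (T : ∀ Z : 𝒱.Obj, Submodule W.K (W.H Z)) (Z : 𝒱.Obj) (D : Z.Cycles)
    (S : Set Z.Cycles) : Prop :=
  ∀ j, 2 * j ≤ Z.dim → ∀ z, Z.IsCyc j z → z ∈ S →
    W.cl Z (divPow ops D (Z.dim - 2 * j + 1) z) ∈ T Z → W.cl Z z ∉ T Z →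
    0 < (-1 : ℚ) ^ j * Z.V.degCycle (ops.mul z (divPow ops D (Z.dim - 2 * j) z))

lemma hodgeMod_num {D : Z.Cycles} (hD : Z.IsCyc 1 D) {S : Set Z.Cycles} :
    HodgeMod (W := W) (fun Z => (algSys W).Num Z) Z D S ↔ NumHodgeOn ops Z D S := by
  have h1 : ∀ j, 2 * j ≤ Z.dim → ∀ z, Z.IsCyc j z →
      (NumPrim ops Z D j z ↔
        W.cl Z (divPow ops D (Z.dim - 2 * j + 1) z) ∈ (algSys W).Num Z) := by
    intro j hj z hz
    have h1 := divPow_mem (ops := ops) hD (Z.dim - 2 * j + 1) hz
    rw [show j + (Z.dim - 2 * j + 1) = Z.dim - j + 1 by omega] at h1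
    exact numTriv_iff h1
  constructor
  · intro h j hj z hz hS hp hz0
    exact h j hj z hz hS ((h1 j hj z hz).1 hp) fun h0 => hz0 ((numTriv_iff hz).2 h0)
  · intro h j hj z hz hS hp hz0
    exact h j hj z hz hS ((h1 j hj z hz).2 hp) fun h0 => hz0 ((numTriv_iff hz).1 h0)

/-! ## Descent -/

lemma cl_divPow' {D : Z.Cycles} (i : ℕ) (z : Z.Cycles) :
    W.cl Z (divPow ops D i z) = W.cl Z D ^ i * W.cl Z z := by
  rw [cl_divPow, mulLeft_pow_apply]

/-- **Positivity descends to the factors of a product.** -/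
theorem hodge_fst {T : ∀ Z : 𝒱.Obj, Submodule W.K (W.H Z)} (hT : TrivSys W T)
    {E : Y.Cycles} (hE : Y.IsCyc 1 E)
    {D : X.Cycles} (hD : X.IsCyc 1 D)
    (hdeg : 0 < X.V.degCycle (divPow ops D X.dim X.V.fundCycle))
    (h : HodgeMod T (Y.prod X) (ops.pull (fst Y X) E + ops.pull (snd Y X) D) Set.univ) :
    HodgeMod T Y E Set.univ := by
  intro j hj z hz _ hp hz0
  set c := W.cl Y z with hc
  set ξ := W.cl Y E with hξ
  set η := W.cl X D with hη
  have hdim : (Y.prod X).dim = Y.dim + X.dim := rfl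
  have hEc : W.cl (Y.prod X) (ops.pull (fst Y X) E + ops.pull (snd Y X) D) =
      W.map (fst Y X) ξ + W.map (snd Y X) η := by
    rw [map_add, W.cl_pull, W.cl_pull]
  have hcomm : Commute (W.map (fst Y X) ξ) (W.map (snd Y X) η) :=
    W.even_comm (p := 1) (W.map_mem _ (W.cl_mem hE)) _
  have hξm : ∀ a, ξ ^ a * c ∈ W.gr Y (2 * (j + a)) := by
    intro a
    rw [hξ, hc, ← cl_divPow']
    exact W.cl_mem (divPow_mem (ops := ops) hE a hz)
  have hηm : ∀ b, η ^ b ∈ W.gr X (2 * b) := by
    intro b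
    have h1 := W.cl_mem (divPow_mem (ops := ops) hD b X.V.fundCycle_mem)
    rwa [cl_divPow', W.cl_fund, mul_one, zero_add] at h1
  have hηd : W.tr X (η ^ X.dim) = (X.V.degCycle (divPow ops D X.dim X.V.fundCycle) : W.K) := by
    have h1 := divPow_mem (ops := ops) hD X.dim X.V.fundCycle_mem
    rw [zero_add] at h1
    rw [← W.tr_cl h1, cl_divPow', W.cl_fund, mul_one]
  have hηA : ∀ b, η ^ b ∈ algSpan W X := by
    intro b
    have h1 := divPow_mem (ops := ops) hD b X.V.fundCycle_mem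
    have h2 : η ^ b = W.cl X (divPow ops D b X.V.fundCycle) := by
      rw [cl_divPow', W.cl_fund, mul_one]
    rw [h2]
    exact Submodule.subset_span (Set.mem_iUnion.2 ⟨_, _, h1, rfl⟩)
  -- the powers of the divisor
  have hpow : ∀ N, (W.map (fst Y X) ξ + W.map (snd Y X) η) ^ N * W.map (fst Y X) c =
      ∑ p ∈ antidiagonal N, (N.choose p.1) •
        (W.map (fst Y X) (ξ ^ p.1 * c) * W.map (snd Y X) (η ^ p.2)) := by
    intro N
    rw [hcomm.add_pow', Finset.sum_mul]
    refine Finset.sum_congr rfl fun p _ => ?_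
    rw [smul_mul_assoc, map_mul, map_pow, map_pow, mul_assoc, mul_assoc]
    congr 2
    rw [← map_pow (W.map (snd Y X)) η]
    exact W.even_comm (W.map_mem _ (hηm p.2)) _
  -- the cycle on the product
  have hz' : (Y.prod X).IsCyc j (ops.pull (fst Y X) z) := ops.pull_mem _ hz
  have hcz' : W.cl (Y.prod X) (ops.pull (fst Y X) z) = W.map (fst Y X) c := W.cl_pull _ _
  have hD' : (Y.prod X).IsCyc 1 (ops.pull (fst Y X) E + ops.pull (snd Y X) D) :=
    SmVar.IsCyc.add (ops.pull_mem _ hE) (ops.pull_mem _ hD)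
  have hprim : ∀ a, Y.dim - 2 * j + 1 ≤ a → ξ ^ a * c ∈ T Y := by
    intro a ha
    have h2 := hp
    rw [cl_divPow'] at h2
    have h3 : ξ ^ a * c = ξ ^ (a - (Y.dim - 2 * j + 1)) * (ξ ^ (Y.dim - 2 * j + 1) * c) := by
      rw [← mul_assoc, ← pow_add]
      congr 2
      omega
    rw [h3]
    refine hT.mul' _ h2 _ ?_
    have h4 := divPow_mem (ops := ops) hE (a - (Y.dim - 2 * j + 1)) Y.V.fundCycle_mem
    have h5 : ξ ^ (a - (Y.dim - 2 * j + 1)) =
        W.cl Y (divPow ops E (a - (Y.dim - 2 * j + 1)) Y.V.fundCycle) := by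
      rw [cl_divPow', W.cl_fund, mul_one]
    rw [h5]
    exact Submodule.subset_span (Set.mem_iUnion.2 ⟨_, _, h4, rfl⟩)
  have hηz : ∀ b, X.dim < b → η ^ b = 0 := by
    intro b hb
    have h1 := hηm b
    rw [W.gr_eq_bot X _ (by omega)] at h1
    exact (Submodule.mem_bot _).1 h1
  have key := h j (by rw [hdim]; omega) _ hz' trivial ?_ ?_
  · -- the value
    rw [hdim] at key
    have hval : ((Y.prod X).V.degCycle (ops.mul (ops.pull (fst Y X) z)
        (divPow ops (ops.pull (fst Y X) E + ops.pull (snd Y X) D) (Y.dim + X.dim - 2 * j)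
          (ops.pull (fst Y X) z))) : W.K) =
        ((((Y.dim + X.dim - 2 * j).choose (Y.dim - 2 * j) : ℚ) *
          (Y.V.degCycle (ops.mul z (divPow ops E (Y.dim - 2 * j) z)) *
            X.V.degCycle (divPow ops D X.dim X.V.fundCycle)) : ℚ) : W.K) := by
      rw [← deg_eq hz' (divPow_mem (ops := ops) hD' _ hz') (by rw [hdim]; omega), cl_divPow',
        hEc, hcz', hpow, Finset.mul_sum, map_sum, Finset.sum_eq_single (Y.dim - 2 * j, X.dim)]
      · rw [mul_smul_comm, map_nsmul, ← mul_assoc, ← map_mul, W.tr_prod, hηd, hc, hξ, ← cl_divPow',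
          deg_eq hz (divPow_mem (ops := ops) hE _ hz) (by omega), nsmul_eq_mul]
        push_cast
        ring
      · intro p hp' hne
        rw [Finset.HasAntidiagonal.mem_antidiagonal] at hp'
        rw [mul_smul_comm, map_nsmul, ← mul_assoc, ← map_mul, W.tr_prod]
        have h1 : p.2 ≠ X.dim := by
          intro h2
          apply hne
          ext
          · change p.1 = Y.dim - 2 * j
            omega
          · exact h2
        rw [W.tr_eq_zero (hηm p.2) (by omega), mul_zero, smul_zero]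
      · intro h1
        exfalso
        apply h1
        rw [Finset.HasAntidiagonal.mem_antidiagonal]
        change Y.dim - 2 * j + X.dim = _
        omega
    have hval' : (Y.prod X).V.degCycle (ops.mul (ops.pull (fst Y X) z)
        (divPow ops (ops.pull (fst Y X) E + ops.pull (snd Y X) D) (Y.dim + X.dim - 2 * j)
          (ops.pull (fst Y X) z))) = ((Y.dim + X.dim - 2 * j).choose (Y.dim - 2 * j) : ℚ) *
          (Y.V.degCycle (ops.mul z (divPow ops E (Y.dim - 2 * j) z)) *
            X.V.degCycle (divPow ops D X.dim X.V.fundCycle)) := by exact_mod_cast hval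
    rw [hval'] at key
    have hch : (0 : ℚ) < ((Y.dim + X.dim - 2 * j).choose (Y.dim - 2 * j) : ℚ) := by
      exact_mod_cast Nat.choose_pos (by omega)
    have h1 : (0 : ℚ) < (((Y.dim + X.dim - 2 * j).choose (Y.dim - 2 * j) : ℚ) *
        X.V.degCycle (divPow ops D X.dim X.V.fundCycle)) *
        ((-1 : ℚ) ^ j * Y.V.degCycle (ops.mul z (divPow ops E (Y.dim - 2 * j) z))) := by
      calc (0 : ℚ) < _ := key
        _ = _ := by ring
    exact (mul_pos_iff_of_pos_left (mul_pos hch hdeg)).1 h1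
  · -- primitivity
    rw [cl_divPow', hEc, hcz', hpow]
    refine Submodule.sum_mem _ fun p hp' => ?_
    rw [Finset.HasAntidiagonal.mem_antidiagonal, hdim] at hp'
    rw [← Nat.cast_smul_eq_nsmul W.K]
    refine Submodule.smul_mem _ _ ?_
    by_cases h2 : X.dim < p.2
    · rw [hηz _ h2, map_zero, mul_zero]
      exact Submodule.zero_mem _
    · exact hT.mul _ (hT.map _ _ (hprim _ (by omega))) _ ((algSys W).map _ (hηA _))
  · -- nontriviality
    intro h0
    apply hz0
    have h1 := h0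
    rw [hcz'] at h1
    have h2 := hT.push (fst Y X) _ (hT.mul _ h1 _ ((algSys W).map (snd Y X) (hηA X.dim)))
    have h3 := push_fst (W := W) c (η ^ X.dim) (PH.congr (by simp) (PH.of (hηm X.dim)))
    rw [xp] at h3
    rw [h3, hηd] at h2
    have h4 : ((X.V.degCycle (divPow ops D X.dim X.V.fundCycle) : ℚ) : W.K) ≠ 0 := by
      exact_mod_cast hdeg.ne'
    have h5 := Submodule.smul_mem _ ((X.V.degCycle (divPow ops D X.dim X.V.fundCycle) : W.K))⁻¹ h2
    rwa [smul_smul, inv_mul_cancel₀ h4, one_smul] at h5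

/-! ## Symmetric powers -/

lemma even_mul_comm {j : ℕ} {x : W.H Z} (hx : x ∈ W.gr Z (2 * j)) (y : W.H Z) : x * y = y * x :=
  W.even_comm hx y

/-- The cycles whose classes are invariant modulo the trivial classes. -/
def invCycles (T : ∀ Z : 𝒱.Obj, Submodule W.K (W.H Z)) (X : 𝒱.Obj) (n : ℕ) :
    Set (pw X (2 * n + 1)).Cycles :=
  {z | ∀ σ : Equiv.Perm (Fin (n + 1)),
    W.map (tau X (2 * n + 1) (pairPerm n σ)) (W.cl _ z) - W.cl _ z ∈ T (pw X (2 * n + 1))}

/-- **Symmetric powers of `X × X` and positivity, even powers.** -/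
theorem hodge_sym {T : ∀ Z : 𝒱.Obj, Submodule W.K (W.H Z)} (hT : TrivSys W T)
    {D : X.Cycles} (hD : X.IsCyc 1 D)
    (hdeg : 0 < X.V.degCycle (divPow ops D X.dim X.V.fundCycle)) (n : ℕ)
    (h : HodgeMod T (pw X (2 * n + 1)) (pwDiv ops D (2 * n + 1)) (invCycles T X n)) :
    HodgeMod T (pw X (2 * n + 1)) (pwDiv ops D (2 * n + 1)) Set.univ := by
  classical
  set m := 2 * n + 1 with hm
  set Z := pw X m with hZ
  set E : Z.Cycles := pwDiv ops D m with hE
  set ξ := W.cl Z E with hξ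
  have hEc : Z.IsCyc 1 E := pwDiv_cyc hD m
  intro j hj z₀ hz₀ _ hp₀ hz₀0
  change 2 * j ≤ Z.dim at hj
  set e := Z.dim - 2 * j with he
  -- the orientation
  have hω : W.cl X D ^ X.dim ∈ W.gr X (2 * X.dim) := by
    have h1 := W.cl_mem (divPow_mem (ops := ops) hD X.dim X.V.fundCycle_mem)
    rwa [cl_divPow', W.cl_fund, mul_one, zero_add] at h1
  have hω0 : W.tr X (W.cl X D ^ X.dim) ≠ 0 := by
    have h1 := divPow_mem (ops := ops) hD X.dim X.V.fundCycle_mem
    rw [zero_add] at h1
    have h2 := W.tr_cl h1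
    rw [cl_divPow', W.cl_fund, mul_one] at h2
    rw [h2]
    exact_mod_cast hdeg.ne'
  -- rational structure
  let _ : Module ℚ (W.H Z) := Module.compHom (W.H Z) (algebraMap ℚ W.K)
  have hsm : ∀ (r : ℚ) (x : W.H Z), r • x = (r : W.K) • x := fun r x => rfl
  let ρ : Representation ℚ (Equiv.Perm (Fin (n + 1) × Bool)) (W.H Z) :=
    { toFun := fun g =>
        { toFun := fun x => W.map (tau X m (((pairing n).symm.trans g).trans (pairing n))) x
          map_add' := fun x y => map_add _ _ _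
          map_smul' := fun r x => by
            rw [hsm, map_smul]
            rfl }
      map_one' := by
        ext x
        change W.map (tau X m _) x = x
        have h1 : ((pairing n).symm.trans (1 : Equiv.Perm (Fin (n + 1) × Bool))).trans
            (pairing n) = 1 := by
          ext i
          change ((pairing n ((pairing n).symm i) : Fin _) : ℕ) = i
          rw [Equiv.apply_symm_apply]
        rw [h1, tau_one]
        exact W.map_id _ _
      map_mul' := fun g g' => by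
        ext x
        change W.map (tau X m _) x = W.map (tau X m _) (W.map (tau X m _) x)
        rw [← W.map_comp, ← tau_mul]
        have h1 : ((pairing n).symm.trans (g * g')).trans (pairing n) =
            (((pairing n).symm.trans g).trans (pairing n)) *
              (((pairing n).symm.trans g').trans (pairing n)) := by
          ext i
          change ((pairing n (g (g' ((pairing n).symm i))) : Fin _) : ℕ) =
            pairing n (g ((pairing n).symm (pairing n (g' ((pairing n).symm i)))))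
          rw [Equiv.symm_apply_apply]
        rw [h1] }
  have hρ : ∀ g x, ρ g x =
    W.map (tau X m (((pairing n).symm.trans g).trans (pairing n))) x := fun _ _ => rfl
  have hξτ : ∀ σ, W.map (tau X m σ) ξ = ξ := fun σ => tau_pwDiv D m σ
  let P : Submodule ℚ (W.H Z) :=
    { carrier := {c | c ∈ algClasses W Z j ∧ ξ ^ (e + 1) * c ∈ T Z}
      zero_mem' := ⟨⟨0, SmVar.IsCyc.zero _ _, map_zero _⟩, by
        rw [mul_zero]; exact Submodule.zero_mem _⟩
      add_mem' := fun {x y} hx hy => ⟨alg_add hx.1 hy.1, by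
        rw [mul_add]; exact Submodule.add_mem _ hx.2 hy.2⟩
      smul_mem' := fun r x hx => ⟨by rw [hsm]; exact alg_smul r hx.1, by
        rw [hsm, mul_smul_comm]; exact Submodule.smul_mem _ _ hx.2⟩ }
  let R : Submodule ℚ (W.H Z) :=
    { carrier := {c | c ∈ T Z}
      zero_mem' := by
        change (0 : W.H Z) ∈ T Z
        exact Submodule.zero_mem _
      add_mem' := fun {x y} hx hy => by
        change x + y ∈ T Z
        exact Submodule.add_mem _ hx hy
      smul_mem' := fun r x hx => by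
        change r • x ∈ T Z
        rw [hsm]
        exact Submodule.smul_mem _ _ hx }
  obtain ⟨θ, hθ⟩ := LinearMap.exists_leftInverse_of_injective (Algebra.linearMap ℚ W.K)
    (LinearMap.ker_eq_bot.2 (algebraMap ℚ W.K).injective)
  have hθ' : ∀ r : ℚ, θ (r : W.K) = r := fun r => LinearMap.congr_fun hθ r
  let q : LinearMap.BilinForm ℚ (W.H Z) :=
    LinearMap.mk₂ ℚ (fun x y => θ ((-1) ^ j * W.tr Z (x * (ξ ^ e * y))))
      (fun x x' y => by rw [add_mul, map_add, mul_add, map_add])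
      (fun r x y => by
        rw [hsm, smul_mul_assoc, map_smul, smul_eq_mul, smul_eq_mul, ← smul_eq_mul r, ← map_smul]
        congr 1
        rw [Rat.smul_def]
        ring)
      (fun x y y' => by rw [mul_add, mul_add, map_add, mul_add, map_add])
      (fun r x y => by
        rw [hsm, mul_smul_comm, mul_smul_comm, map_smul, smul_eq_mul, smul_eq_mul,
          ← smul_eq_mul r, ← map_smul]
        congr 1
        rw [Rat.smul_def]
        ring)
  have hq : ∀ x y, q x y = θ ((-1) ^ j * W.tr Z (x * (ξ ^ e * y))) := fun _ _ => rfl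
  have hqz : ∀ z, Z.IsCyc j z → q (W.cl Z z) (W.cl Z z) =
      (-1 : ℚ) ^ j * Z.V.degCycle (ops.mul z (divPow ops E e z)) := by
    intro z hz
    rw [hq, ← cl_divPow', deg_eq hz (divPow_mem (ops := ops) hEc e hz) (by omega)]
    refine (congrArg θ ?_).trans (hθ' _)
    push_cast
    ring
  have hξe : ξ ^ e ∈ W.gr Z (2 * e) := by
    have h1 := W.cl_mem (divPow_mem (ops := ops) hEc e Z.V.fundCycle_mem)
    rwa [cl_divPow', W.cl_fund, mul_one, zero_add] at h1
  have hξA : ξ ^ e ∈ algSpan W Z := by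
    have h1 := divPow_mem (ops := ops) hEc e Z.V.fundCycle_mem
    have h2 : ξ ^ e = W.cl Z (divPow ops E e Z.V.fundCycle) := by
      rw [cl_divPow', W.cl_fund, mul_one]
    rw [h2]
    exact Submodule.subset_span (Set.mem_iUnion.2 ⟨_, _, h1, rfl⟩)
  have key := pos_mod ρ P R ?_ ?_ q ?_ ?_ ?_ ?_ (W.cl Z z₀) ⟨⟨z₀, hz₀, rfl⟩, ?_⟩ ?_
  · rwa [hqz z₀ hz₀] at key
  · -- stability of `P`
    intro g c hc
    obtain ⟨⟨z, hz, rfl⟩, hc2⟩ := hc
    refine ⟨⟨ops.pull _ z, ops.pull_mem _ hz, W.cl_pull _ _⟩, ?_⟩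
    rw [hρ]
    have h1 := hT.map (tau X m (((pairing n).symm.trans g).trans (pairing n))) _ hc2
    rwa [map_mul, map_pow, hξτ] at h1
  · intro g c hc
    exact hT.map _ _ hc
  · -- symmetry
    intro x hx y hy
    rw [hq, hq]
    congr 3
    rw [even_mul_comm (alg_gr hx.1), mul_assoc, even_mul_comm hξe, mul_assoc,
      ← even_mul_comm hξe]
  · -- invariance
    intro g x _ y _
    rw [hq, hq, hρ, hρ]
    congr 2
    have h1 : W.map (tau X m (((pairing n).symm.trans g).trans (pairing n))) x *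
        (ξ ^ e * W.map (tau X m (((pairing n).symm.trans g).trans (pairing n))) y) =
        W.map (tau X m (((pairing n).symm.trans g).trans (pairing n))) (x * (ξ ^ e * y)) := by
      rw [map_mul, map_mul, map_pow, hξτ]
    rw [h1]
    exact tr_tau hω hω0 m _ _
  · intro x hx r hr _
    rw [hq]
    have h1 : x * (ξ ^ e * r) ∈ T Z :=
      hT.mul' _ (hT.mul' _ hr _ hξA) _ (Submodule.subset_span (Set.mem_iUnion.2 ⟨j, hx.1⟩))
    rw [hT.tr _ h1, mul_zero, map_zero]
  · -- positivity for invariant classes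
    intro v hv hvR hinv
    obtain ⟨⟨z, hz, rfl⟩, hv2⟩ := hv
    rw [hqz z hz]
    refine h j hj z hz hinv ?_ hvR
    rw [cl_divPow']
    exact hv2
  · rwa [cl_divPow'] at hp₀
  · exact hz₀0

/-- **Symmetric powers of `X × X` and positivity.** -/
theorem hodge_iff {T : ∀ Z : 𝒱.Obj, Submodule W.K (W.H Z)} (hT : TrivSys W T)
    {D : X.Cycles} (hD : X.IsCyc 1 D)
    (hdeg : 0 < X.V.degCycle (divPow ops D X.dim X.V.fundCycle)) :
    (∀ n, HodgeMod T (pw X (2 * n + 1)) (pwDiv ops D (2 * n + 1)) (invCycles T X n)) ↔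
      ∀ m, HodgeMod T (pw X m) (pwDiv ops D m) Set.univ := by
  refine ⟨fun h m => ?_, fun h n j hj z hz _ => h _ j hj z hz trivial⟩
  rcases Nat.even_or_odd' m with ⟨n, rfl | rfl⟩
  · exact hodge_fst hT (pwDiv_cyc hD (2 * n)) hD hdeg (hodge_sym hT hD hdeg n (h n))
  · exact hodge_sym hT hD hdeg n (h n)

end Pool.Agent.Q55.Sy
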