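import Pool.Agent.Q55.Sy.Defs

/-!
# The conjecture D in middle dimension for the symmetric powers of `X × X`
-/

open CategoryTheory AlgebraicGeometry

universe u v

namespace Pool.Agent.Q55.Sy

open Pool.Agent.H914 Pool.Agent.H914.VarClass Pool.Agent.H914.VarClass.Obj
open Pool.Agent.Y133.Half (pw prj tau)
open Pool.Agent.Q55 (StandardBCD)
open Pool.Agent.Q55.Nr (NumTriv)

variable {k : Type u} [Field k] {𝒱 : VarClass k} {ops : CycleOps 𝒱}

/-- **The conjecture D in middle dimension for all symmetric powers of `X × X`**: for all `n`, if a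
cycle on `(X × X)^(n + 1)` whose dimension is equal to its codimension `(n + 1) dim X` is numerically
trivial, and if its class is invariant under the permutations of the factors `X × X`, then its
class is zero. -/
def MiddleDSym (W : WeilCohomology.{u, v} ops) (X : 𝒱.Obj) : Prop :=
  ∀ n z, (pw X (2 * n + 1)).IsCyc ((n + 1) * X.dim) z → W.cl (pw X (2 * n + 1)) z ∈
    symClasses W X n → NumTriv ops (pw X (2 * n + 1)) ((n + 1) * X.dim) z →
    W.cl (pw X (2 * n + 1)) z = 0

/-- The conjectures B, C and D hold for all powers of `X`. -/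
def AllBCD (W : WeilCohomology.{u, v} ops) (X : 𝒱.Obj) : Prop := ∀ m, StandardBCD W (pw X m)

end Pool.Agent.Q55.Sy
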