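import Pool.Agent.Q55.Sy.DDefs
import Pool.Agent.Q55.Sy.Geo
import Pool.Agent.Q55.ZeroOne

/-!
# The conjecture D for the symmetric powers of `X × X`
-/

open CategoryTheory AlgebraicGeometry Finset

set_option linter.unusedSectionVars false

universe u v

namespace Pool.Agent.Q55.Sy

open Pool.Agent.H914 Pool.Agent.H914.VarClass Pool.Agent.H914.VarClass.Obj
  Pool.Agent.H914.WeilCohomology
open Pool.Agent.Q60.NP Pool.Agent.Q60.TD Pool.Agent.Y133.Half Pool.Agent.H281R3.HT
open Pool.Agent.Q55 Pool.Agent.Q55.Nr Pool.Agent.Q55.Hs Pool.Agent.Q56.SP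

variable {k : Type u} [Field k] {𝒱 : VarClass k} {ops : CycleOps 𝒱}
  {W : WeilCohomology.{u, v} ops} {X : 𝒱.Obj}

/-- The Lefschetz triples of the powers. -/
lemma exists_sl2_pw {D : X.Cycles} (hD : X.IsCyc 1 D) (hHL : HardLefschetz W X D) : ∀ n,
    ∃ f, Sl2 (wt (W.isInternal (pw X n)) (pw X n).dim)
      (LinearMap.mulLeft W.K (W.cl (pw X n) (pwDiv ops D n))) f
  | 0 => by
    obtain ⟨f, t, -⟩ := exists_sl2 (W.isInternal X) (mulLeft_isHom hD) W_hbd hHL
    exact ⟨f, t⟩
  | n + 1 => by
    obtain ⟨f, t⟩ := exists_sl2_pw hD hHL n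
    obtain ⟨f', t', -⟩ := exists_sl2 (W.isInternal X) (mulLeft_isHom hD) W_hbd hHL
    refine ⟨extSum W f f', ?_⟩
    have h1 := sl2_prod (Y := pw X n) (Z := X) t t'
    rw [← wt_prod, ← mulLeft_prod hD] at h1
    exact h1

/-- Multiplication by powers of the divisor is injective below the middle. -/
lemma pow_ne {D : X.Cycles} (hD : X.IsCyc 1 D) (hHL : HardLefschetz W X D) (n : ℕ) {i e : ℕ}
    (hi : i + e ≤ (pw X n).dim) {c : W.H (pw X n)} (hc : c ∈ W.gr (pw X n) i) (hc0 : c ≠ 0) :
    W.cl (pw X n) (pwDiv ops D n) ^ e * c ≠ 0 := by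
  obtain ⟨f, t⟩ := exists_sl2_pw (ops := ops) hD hHL n
  rw [← mulLeft_pow_apply]
  refine t.e_pow_inj (M := (pw X n).dim - i) ?_ hc0 (by omega)
  rw [Pool.Agent.W552.Fr.wt_gr hc, Nat.cast_sub (by omega)]
  congr 1
  ring

/-- **The conjecture D for all powers of `X` is the conjecture D in middle dimension for the
symmetric powers of `X × X`.** -/
theorem allBCD_iff {D : X.Cycles} (hD : X.IsCyc 1 D) (hHL : HardLefschetz W X D) :
    AllBCD W X ↔ MiddleDSym W X := by
  classical
  constructor
  · intro h n z hz _ hnum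
    have h1 := (homEqNum_iff _).1 (h (2 * n + 1)).1
    have h2 := (numTriv_iff (W := W) hz).1 hnum
    rw [h1] at h2
    exact (Submodule.mem_bot _).1 h2
  intro h
  -- even powers, middle dimension
  have hmid : ∀ n z, (pw X (2 * n + 1)).IsCyc ((n + 1) * X.dim) z →
      W.cl (pw X (2 * n + 1)) z ∈ (algSys W).Num (pw X (2 * n + 1)) →
      W.cl (pw X (2 * n + 1)) z = 0 := by
    intro n
    set m := 2 * n + 1 with hm
    intro z₀ hz₀ hnum
    by_contra h0
    let _ : Module ℚ (W.H (pw X m)) := Module.compHom (W.H (pw X m)) (algebraMap ℚ W.K)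
    have hsm : ∀ (r : ℚ) (x : W.H (pw X m)), r • x = (r : W.K) • x := fun r x => rfl
    let V : Submodule ℚ (W.H (pw X m)) :=
      { carrier := {c | c ∈ algClasses W (pw X m) ((n + 1) * X.dim) ∧
          c ∈ (algSys W).Num (pw X m)}
        zero_mem' := ⟨⟨0, SmVar.IsCyc.zero _ _, map_zero _⟩, Submodule.zero_mem _⟩
        add_mem' := fun {x y} hx hy => ⟨alg_add hx.1 hy.1, Submodule.add_mem _ hx.2 hy.2⟩
        smul_mem' := fun r x hx => ⟨by rw [hsm]; exact alg_smul r hx.1, by
          rw [hsm]; exact Submodule.smul_mem _ _ hx.2⟩ }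
    have hst : ∀ σ, ∀ c ∈ V, W.map (tau X m σ) c ∈ V := by
      rintro σ c ⟨⟨z, hz, rfl⟩, hc⟩
      exact ⟨⟨ops.pull _ z, ops.pull_mem _ hz, W.cl_pull _ _⟩, Sys.Num.map _ hc⟩
    let ρ : Representation ℚ (Equiv.Perm (Fin (n + 1) × Bool)) V :=
      { toFun := fun g =>
          { toFun := fun x => ⟨W.map (tau X m (((pairing n).symm.trans g).trans (pairing n))) x,
              hst _ _ x.2⟩
            map_add' := fun x y => Subtype.ext (map_add _ _ _)
            map_smul' := fun r x => by
              apply Subtype.ext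
              change W.map _ (r • (x : W.H (pw X m))) = r • W.map _ (x : W.H (pw X m))
              rw [hsm, map_smul]
              rfl }
        map_one' := by
          ext x
          change W.map (tau X m _) (x : W.H (pw X m)) = x
          have h1 : ((pairing n).symm.trans (1 : Equiv.Perm (Fin (n + 1) × Bool))).trans
              (pairing n) = 1 := by
            ext i
            change ((pairing n ((pairing n).symm i) : Fin _) : ℕ) = i
            rw [Equiv.apply_symm_apply]
          rw [h1, tau_one]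
          exact W.map_id _ _
        map_mul' := fun g g' => by
          ext x
          change W.map (tau X m _) (x : W.H (pw X m)) =
            W.map (tau X m _) (W.map (tau X m _) (x : W.H (pw X m)))
          rw [← W.map_comp, ← tau_mul]
          have h1 : ((pairing n).symm.trans (g * g')).trans (pairing n) =
              (((pairing n).symm.trans g).trans (pairing n)) *
                (((pairing n).symm.trans g').trans (pairing n)) := by
            ext i
            change ((pairing n (g (g' ((pairing n).symm i))) : Fin _) : ℕ) =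
              pairing n (g ((pairing n).symm (pairing n (g' ((pairing n).symm i)))))
            rw [Equiv.symm_apply_apply]
          rw [h1] }
    have : Nontrivial V := ⟨⟨⟨W.cl _ z₀, ⟨z₀, hz₀, rfl⟩, hnum⟩, 0, fun h1 =>
      h0 (congrArg Subtype.val h1)⟩⟩
    obtain ⟨⟨_, ⟨z, hz, rfl⟩, hc⟩, hv0, hv⟩ := exists_diag ρ
    refine hv0 (Subtype.ext (h n z hz (mem_symClasses.2 fun σ => ?_)
      ((numTriv_iff (W := W) hz).2 hc)))
    exact congrArg Subtype.val (hv σ)
  -- all powers
  have hall : ∀ m, HomEqNum W (pw X m) := by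
    intro m j hj z hz hn
    have hdm : (pw X m).dim = (m + 1) * X.dim := dim_pw X m
    have hd2 : (pw X (2 * m + 1)).dim = 2 * ((m + 1) * X.dim) := by
      rw [dim_pw]
      ring
    by_contra hc0
    have hcn : W.cl (pw X m) z ∈ (algSys W).Num (pw X m) :=
      (numTriv_iff hz).1 fun i w hi hw => hn w (by
        rwa [show i = (pw X m).dim - j by omega] at hw)
    obtain ⟨s, p, -, -, hsp⟩ := exists_coord (X := X) (m := m) (n := 2 * m + 1) (by omega)
    have hp0 : W.map p (W.cl (pw X m) z) ≠ 0 := by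
      intro h0
      apply hc0
      have h1 := congrArg (W.map s) h0
      rwa [← W.map_comp, hsp, W.map_id, map_zero] at h1
    set e := (m + 1) * X.dim - j with he
    have hz' : (pw X (2 * m + 1)).IsCyc ((m + 1) * X.dim)
        (divPow ops (pwDiv ops D (2 * m + 1)) e (ops.pull p z)) := by
      have h1 := divPow_mem (ops := ops) (pwDiv_cyc (ops := ops) hD (2 * m + 1)) e
        (ops.pull_mem p hz)
      rwa [show j + e = (m + 1) * X.dim by omega] at h1
    have hcl : W.cl (pw X (2 * m + 1)) (divPow ops (pwDiv ops D (2 * m + 1)) e (ops.pull p z)) =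
        W.cl (pw X (2 * m + 1)) (pwDiv ops D (2 * m + 1)) ^ e * W.map p (W.cl (pw X m) z) := by
      rw [cl_divPow', W.cl_pull]
    have h2 := hmid m _ hz' (by
      rw [hcl]
      refine Sys.Num.mul' ?_ (Sys.Num.map p hcn)
      have h4 := divPow_mem (ops := ops) (pwDiv_cyc (ops := ops) hD (2 * m + 1)) e
        (pw X (2 * m + 1)).V.fundCycle_mem
      have h5 : W.cl (pw X (2 * m + 1)) (pwDiv ops D (2 * m + 1)) ^ e =
          W.cl _ (divPow ops (pwDiv ops D (2 * m + 1)) e (pw X (2 * m + 1)).V.fundCycle) := by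
        rw [cl_divPow', W.cl_fund, mul_one]
      rw [h5]
      exact Submodule.subset_span (Set.mem_iUnion.2 ⟨_, _, h4, rfl⟩))
    rw [hcl] at h2
    exact pow_ne hD hHL (2 * m + 1) (i := 2 * j) (by rw [hd2]; omega)
      (W.map_mem p (W.cl_mem hz)) hp0 h2
  intro m
  refine ⟨hall m, fun E hE hHL' => ?_⟩
  have hB := lefschetzB_of_square hE hHL' (homEqNum_square_pw hall m)
  exact ⟨hB, kunneth_of_lefschetzB hE hHL' hB⟩

end Pool.Agent.Q55.Sy
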