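import Pool.Agent.Q55.Sy.Geo

/-!
# Symmetric powers of `X × X` and the Hodge standard conjecture: the main theorem
-/

open CategoryTheory AlgebraicGeometry Finset

set_option linter.unusedSectionVars false

universe u v

namespace Pool.Agent.Q55.Sy

open Pool.Agent.H914 Pool.Agent.H914.VarClass Pool.Agent.H914.VarClass.Obj
  Pool.Agent.H914.WeilCohomology
open Pool.Agent.W552 (HodgeTypeOn)
open Pool.Agent.Q60.NP Pool.Agent.Q60.TD Pool.Agent.Y133.Half
open Pool.Agent.Q55 Pool.Agent.Q55.Nr Pool.Agent.Q55.Hs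

variable {k : Type u} [Field k] {𝒱 : VarClass k} {ops : CycleOps 𝒱}
  {W : WeilCohomology.{u, v} ops} {X : 𝒱.Obj}

theorem num_iff (W : WeilCohomology.{u, v} ops) {D : X.Cycles} (hD : X.IsCyc 1 D)
    (hdeg : 0 < X.V.degCycle (divPow ops D X.dim X.V.fundCycle)) :
    (∀ n, NumHodgeOn ops (pw X (2 * n + 1)) (pwDiv ops D (2 * n + 1)) (symCycles ops X n)) ↔
      ∀ m, NumHodge ops (pw X m) (pwDiv ops D m) := by
  refine ⟨fun h m => ?_, fun h n j hj z hz _ => h _ j hj z hz trivial⟩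
  refine (hodgeMod_num (W := W) (pwDiv_cyc hD m)).1
    ((hodge_iff trivSys_num hD hdeg).1 (fun n j hj z hz hS => ?_) m)
  refine (hodgeMod_num (W := W) (pwDiv_cyc hD (2 * n + 1))).2 (h n) j hj z hz fun i hi σ => ?_
  have h1 : (pw X (2 * n + 1)).IsCyc i (ops.pull (tau X (2 * n + 1) (pairPerm n σ)) z - z) := by
    have h2 := SmVar.IsCyc.add (ops.pull_mem (tau X (2 * n + 1) (pairPerm n σ)) hi) (hi.smul (-1))
    rwa [neg_one_smul, ← sub_eq_add_neg] at h2
  refine (numTriv_iff (W := W) h1).2 ?_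
  rw [map_sub, W.cl_pull]
  exact hS σ

theorem hom_iff (W : WeilCohomology.{u, v} ops) {D : X.Cycles} (hD : X.IsCyc 1 D)
    (hdeg : 0 < X.V.degCycle (divPow ops D X.dim X.V.fundCycle)) :
    (∀ n, HodgeTypeOn W (pw X (2 * n + 1)) (pwDiv ops D (2 * n + 1)) (symClasses W X n)) ↔
      ∀ m, HodgeType W (pw X m) (pwDiv ops D m) := by
  refine ⟨fun h m j hj z hz hp hz0 => ?_, fun h n j hj z hz _ => h _ j hj z hz⟩
  refine (hodge_iff (W := W) trivSys_bot hD hdeg).1 (fun n j hj z hz hS hp hz0 => ?_) m j hj z hz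
    trivial ((Submodule.mem_bot _).2 hp) fun h0 => hz0 ((Submodule.mem_bot _).1 h0)
  refine h n j hj z hz (mem_symClasses.2 fun σ => ?_) ((Submodule.mem_bot _).1 hp)
    fun h0 => hz0 ((Submodule.mem_bot _).2 h0)
  exact sub_eq_zero.1 ((Submodule.mem_bot _).1 (hS σ))

end Pool.Agent.Q55.Sy
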