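import Mathlib
import Pool.Agent.Q56.SP.Diag

/-!
# Positivity of invariant forms is detected on the invariants of the diagonal symmetric group
-/

set_option autoImplicit false
set_option linter.unusedSectionVars false

open Equiv Finset TensorProduct

namespace Pool.Agent.Q55.Sy

open Pool.Agent.Q56.SP

variable {n : ℕ}

/-- Real representations. -/
theorem exists_diag_real {V : Type*} [AddCommGroup V] [Module ℝ V]
    (ρ : Representation ℝ (Perm (Fin n × Bool)) V) (S : Submodule ℝ V)
    (hS : ∀ g, ∀ v ∈ S, ρ g v ∈ S) (h0 : S ≠ ⊥) :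
    ∃ v ∈ S, v ≠ 0 ∧ ∀ σ : Perm (Fin n), ρ (dg σ) v = v := by
  have : Nontrivial S := Submodule.nontrivial_iff_ne_bot.2 h0
  let _ : Module ℚ S := Module.compHom S (algebraMap ℚ ℝ)
  let ρ' : Representation ℚ (Perm (Fin n × Bool)) S :=
    { toFun := fun g => ((ρ g).restrict (hS g)).toAddMonoidHom.toRatLinearMap
      map_one' := by
        ext v
        change ρ 1 (v : V) = v
        rw [map_one]
        rfl
      map_mul' := fun g h => by
        ext v
        change ρ (g * h) (v : V) = ρ g (ρ h v)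
        rw [map_mul]
        rfl }
  obtain ⟨v, hv, hv'⟩ := exists_diag ρ'
  exact ⟨v, v.2, fun h => hv (Subtype.ext h), fun σ => congrArg Subtype.val (hv' σ)⟩

open scoped InnerProductSpace in
/-- Invariant forms on unitary representations. -/
theorem pos_unitary {V : Type*} [NormedAddCommGroup V] [InnerProductSpace ℝ V]
    [FiniteDimensional ℝ V] (ρ : Representation ℝ (Perm (Fin n × Bool)) V)
    (hρ : ∀ g x y, ⟪ρ g x, ρ g y⟫_ℝ = ⟪x, y⟫_ℝ) (q : LinearMap.BilinForm ℝ V)
    (hsym : ∀ x y, q x y = q y x) (hinv : ∀ g x y, q (ρ g x) (ρ g y) = q x y)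
    (hpos : ∀ v, v ≠ 0 → (∀ σ : Perm (Fin n), ρ (dg σ) v = v) → 0 < q v v) :
    ∀ x, x ≠ 0 → 0 < q x x := by
  classical
  let b := stdOrthonormalBasis ℝ V
  let T : V →ₗ[ℝ] V := ∑ i, (q.flip (b i)).smulRight (b i)
  have hT : ∀ x y, ⟪T x, y⟫_ℝ = q x y := by
    intro x y
    have h1 : T x = ∑ i, q x (b i) • b i := by
      simp only [T, LinearMap.sum_apply, LinearMap.smulRight_apply]
      rfl
    have h2 : y = ∑ i, ⟪b i, y⟫_ℝ • b i := (b.sum_repr' y).symm
    conv_rhs => rw [h2]
    rw [h1, sum_inner, map_sum]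
    refine Finset.sum_congr rfl fun i _ => ?_
    rw [real_inner_smul_left, map_smul, smul_eq_mul, mul_comm]
  have hTs : T.IsSymmetric := fun x y => by
    rw [hT, hsym, real_inner_comm, hT]
  have hTρ : ∀ g x, T (ρ g x) = ρ g (T x) := by
    intro g x
    refine ext_inner_right ℝ fun y => ?_
    have h1 : y = ρ g (ρ g⁻¹ y) := by
      rw [← Module.End.mul_apply, ← map_mul, mul_inv_cancel, map_one, Module.End.one_apply]
    rw [hT, h1, hinv, hρ, hT]
  have hev : ∀ i, 0 < hTs.eigenvalues rfl i := by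
    intro i
    set μ := hTs.eigenvalues rfl i with hμ
    have hi : T (hTs.eigenvectorBasis rfl i) = μ • hTs.eigenvectorBasis rfl i := by
      have := hTs.apply_eigenvectorBasis rfl i
      exact_mod_cast this
    let S : Submodule ℝ V := LinearMap.ker (T - μ • LinearMap.id)
    have hSm : ∀ v, v ∈ S ↔ T v = μ • v := fun v => by
      rw [LinearMap.mem_ker, LinearMap.sub_apply, sub_eq_zero]
      rfl
    obtain ⟨v, hv, hv0, hvinv⟩ := exists_diag_real ρ S (fun g v hv => by
        rw [hSm] at hv ⊢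
        rw [hTρ, hv, map_smul]) (by
        intro h0
        have h1 : hTs.eigenvectorBasis rfl i ∈ S := (hSm _).2 hi
        rw [h0, Submodule.mem_bot] at h1
        exact (hTs.eigenvectorBasis rfl).orthonormal.ne_zero i h1)
    have h1 := hpos v hv0 hvinv
    rw [← hT, (hSm v).1 hv, real_inner_smul_left] at h1
    have h2 : 0 < ⟪v, v⟫_ℝ := by
      rw [real_inner_self_eq_norm_sq]
      have := norm_pos_iff.2 hv0
      positivity
    exact (mul_pos_iff_of_pos_right h2).1 h1
  intro x hx
  set e := hTs.eigenvectorBasis rfl with he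
  have h1 : q x x = ∑ i, hTs.eigenvalues rfl i * ⟪e i, x⟫_ℝ ^ 2 := by
    rw [← hT, ← e.sum_inner_mul_inner]
    refine Finset.sum_congr rfl fun i _ => ?_
    have h2 : T (e i) = hTs.eigenvalues rfl i • e i := by
      have := hTs.apply_eigenvectorBasis rfl i
      exact_mod_cast this
    rw [hTs x (e i), h2, real_inner_smul_right, real_inner_comm x (e i)]
    ring
  rw [h1]
  have hex : ∃ i, ⟪e i, x⟫_ℝ ≠ 0 := by
    by_contra h0
    push Not at h0
    apply hx
    rw [← e.sum_repr' x]
    exact Finset.sum_eq_zero fun i _ => by rw [h0 i, zero_smul]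
  obtain ⟨i, hi⟩ := hex
  refine Finset.sum_pos' (fun i _ => mul_nonneg (hev i).le (sq_nonneg _))
    ⟨i, Finset.mem_univ i, mul_pos (hev i) (by positivity)⟩

/-- **Real invariant forms.** -/
theorem pos_real {V : Type*} [AddCommGroup V] [Module ℝ V] [FiniteDimensional ℝ V]
    (ρ : Representation ℝ (Perm (Fin n × Bool)) V) (q : LinearMap.BilinForm ℝ V)
    (hsym : ∀ x y, q x y = q y x) (hinv : ∀ g x y, q (ρ g x) (ρ g y) = q x y)
    (hpos : ∀ v, v ≠ 0 → (∀ σ : Perm (Fin n), ρ (dg σ) v = v) → 0 < q v v) :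
    ∀ x, x ≠ 0 → 0 < q x x := by
  classical
  let b := Module.finBasis ℝ V
  let p : V → V → ℝ := fun x y => ∑ g : Perm (Fin n × Bool), ∑ i, b.repr (ρ g x) i *
    b.repr (ρ g y) i
  let core : InnerProductSpace.Core ℝ V :=
    { inner := p
      conj_inner_symm := fun x y => by
        change (starRingEnd ℝ) (p y x) = p x y
        rw [starRingEnd_apply, star_trivial]
        exact Finset.sum_congr rfl fun g _ => Finset.sum_congr rfl fun i _ => mul_comm _ _
      re_inner_nonneg := fun x => by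
        exact Finset.sum_nonneg fun g _ => Finset.sum_nonneg fun i _ => mul_self_nonneg _
      add_left := fun x y z => by
        change p (x + y) z = p x z + p y z
        simp only [p, map_add, Finsupp.add_apply, add_mul, Finset.sum_add_distrib]
      smul_left := fun x y r => by
        change p (r • x) y = (starRingEnd ℝ) r * p x y
        simp only [p, map_smul, Finsupp.smul_apply, smul_eq_mul, Finset.mul_sum, mul_assoc,
          starRingEnd_apply, star_trivial]
      definite := fun x hx => by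
        change p x x = 0 at hx
        have h1 := (Finset.sum_eq_zero_iff_of_nonneg fun g _ =>
          Finset.sum_nonneg fun i _ => mul_self_nonneg _).1 hx 1 (Finset.mem_univ _)
        rw [map_one] at h1
        have h2 := (Finset.sum_eq_zero_iff_of_nonneg fun i _ => mul_self_nonneg _).1 h1
        apply b.repr.injective
        ext i
        rw [map_zero]
        exact mul_self_eq_zero.1 (h2 i (Finset.mem_univ i)) }
  let _ : NormedAddCommGroup V := core.toNormedAddCommGroup
  let _ : InnerProductSpace ℝ V := InnerProductSpace.ofCore core.toCore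
  refine pos_unitary ρ (fun g x y => ?_) q hsym hinv hpos
  change p (ρ g x) (ρ g y) = p x y
  refine Fintype.sum_equiv (Equiv.mulRight g) _ _ fun h => ?_
  simp only [Equiv.coe_mulRight, map_mul, Module.End.mul_apply]

/-- **Rational invariant forms.** -/
theorem pos_rat {V : Type*} [AddCommGroup V] [Module ℚ V] [FiniteDimensional ℚ V]
    (ρ : Representation ℚ (Perm (Fin n × Bool)) V) (q : LinearMap.BilinForm ℚ V)
    (hsym : ∀ x y, q x y = q y x) (hinv : ∀ g x y, q (ρ g x) (ρ g y) = q x y)
    (hpos : ∀ v, v ≠ 0 → (∀ σ : Perm (Fin n), ρ (dg σ) v = v) → 0 < q v v) :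
    ∀ x, x ≠ 0 → 0 < q x x := by
  classical
  let ρR : Representation ℝ (Perm (Fin n × Bool)) (ℝ ⊗[ℚ] V) :=
    { toFun := fun g => (ρ g).baseChange ℝ
      map_one' := by
        rw [map_one]
        exact LinearMap.baseChange_id
      map_mul' := fun g h => by
        rw [map_mul]
        exact LinearMap.baseChange_comp _ _ }
  let qR : LinearMap.BilinForm ℝ (ℝ ⊗[ℚ] V) := LinearMap.BilinForm.baseChange ℝ q
  have hqR : ∀ (a b : ℝ) (x y : V), qR (a ⊗ₜ x) (b ⊗ₜ y) = (q x y : ℝ) * (a * b) := by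
    intro a b x y
    change LinearMap.BilinForm.baseChange ℝ q (a ⊗ₜ x) (b ⊗ₜ y) = _
    rw [LinearMap.BilinForm.baseChange_tmul, Rat.smul_def]
  -- the invariants
  let S : Submodule ℚ V :=
    { carrier := {v | ∀ σ : Perm (Fin n), ρ (dg σ) v = v}
      zero_mem' := fun σ => map_zero _
      add_mem' := fun {v w} hv hw σ => by rw [map_add, hv σ, hw σ]
      smul_mem' := fun c v hv σ => by rw [map_smul, hv σ] }
  let av : V →ₗ[ℚ] V := ((Fintype.card (Perm (Fin n)) : ℚ)⁻¹) • ∑ σ : Perm (Fin n), ρ (dg σ)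
  have hav : ∀ v, av v ∈ S := by
    intro v τ
    change ρ (dg τ) (((Fintype.card (Perm (Fin n)) : ℚ)⁻¹) • (∑ σ : Perm (Fin n), ρ (dg σ)) v) =
      ((Fintype.card (Perm (Fin n)) : ℚ)⁻¹) • (∑ σ : Perm (Fin n), ρ (dg σ)) v
    rw [map_smul, LinearMap.sum_apply, map_sum]
    congr 1
    refine Fintype.sum_equiv (Equiv.mulLeft τ) _ _ fun σ => ?_
    rw [← Module.End.mul_apply, ← map_mul, ← dg_mul]
    rfl
  have hS2 : Invertible (2 : ℚ) := invertibleOfNonzero two_ne_zero
  have hSsym : LinearMap.IsSymm (LinearMap.BilinForm.restrict q S) := ⟨fun x y => hsym x y⟩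
  obtain ⟨f, hf⟩ := LinearMap.BilinForm.exists_orthogonal_basis hSsym
  have hfpos : ∀ i, 0 < q (f i) (f i) := fun i =>
    hpos _ (fun h => f.ne_zero i (Subtype.ext h)) (f i).2
  have hfo : ∀ i j, i ≠ j → q (f i) (f j) = 0 := fun i j hij => hf hij
  let B := f.baseChange ℝ
  have hB : ∀ i, S.subtype.baseChange ℝ (B i) = (1 : ℝ) ⊗ₜ[ℚ] (f i : V) := by
    intro i
    rw [Module.Basis.baseChange_apply, LinearMap.baseChange_tmul]
    rfl
  have key := pos_real ρR qR (fun x y => ?_) (fun g x y => ?_) (fun v hv0 hv => ?_)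
  · intro x hx
    have h1 := key ((1 : ℝ) ⊗ₜ[ℚ] x) (by
      intro h0
      apply hx
      have h2 := (Module.Flat.rTensor_preserves_injective_linearMap (M := V)
        (Algebra.linearMap ℚ ℝ) (algebraMap ℚ ℝ).injective)
      have h3 : (Algebra.linearMap ℚ ℝ).rTensor V ((1 : ℚ) ⊗ₜ[ℚ] x) =
          (Algebra.linearMap ℚ ℝ).rTensor V 0 := by
        rw [LinearMap.rTensor_tmul, map_zero, Algebra.linearMap_apply, map_one]
        exact h0
      have h4 := congrArg (TensorProduct.lid ℚ V) (h2 h3)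
      rwa [TensorProduct.lid_tmul, one_smul, map_zero] at h4)
    rw [hqR, one_mul, mul_one] at h1
    exact_mod_cast h1
  · exact (LinearMap.BilinForm.IsSymm.baseChange ℝ (B₂ := q) ⟨hsym⟩).eq x y
  · induction x using TensorProduct.induction_on with
    | zero => rw [map_zero, map_zero, LinearMap.zero_apply, LinearMap.zero_apply]
    | add x x' hx hx' => rw [map_add, map_add, map_add, LinearMap.add_apply, LinearMap.add_apply,
        hx, hx']
    | tmul a x =>
      induction y using TensorProduct.induction_on with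
      | zero => rw [map_zero, map_zero, map_zero]
      | add y y' hy hy' => rw [map_add, map_add, map_add, hy, hy']
      | tmul b y =>
        change qR ((ρ g).baseChange ℝ (a ⊗ₜ x)) ((ρ g).baseChange ℝ (b ⊗ₜ y)) = _
        rw [LinearMap.baseChange_tmul, LinearMap.baseChange_tmul, hqR, hqR, hinv]
  · -- the invariants of the real representation
    have h1 : ∀ y : ℝ ⊗[ℚ] V, ∃ w : ℝ ⊗[ℚ] S, S.subtype.baseChange ℝ w = av.baseChange ℝ y := by
      intro y
      refine ⟨(av.codRestrict S hav).baseChange ℝ y, ?_⟩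
      rw [← LinearMap.comp_apply, ← LinearMap.baseChange_comp]
      rfl
    have h2 : av.baseChange ℝ v = v := by
      have e1 : av.baseChange ℝ v = ((Fintype.card (Perm (Fin n)) : ℚ)⁻¹) •
          ∑ σ : Perm (Fin n), (ρ (dg σ)).baseChange ℝ v := by
        rw [LinearMap.baseChange_smul, LinearMap.smul_apply]
        congr 1
        have e2 : (∑ σ : Perm (Fin n), ρ (dg σ)).baseChange ℝ =
            ∑ σ : Perm (Fin n), (ρ (dg σ)).baseChange ℝ := by
          exact map_sum (LinearMap.baseChangeHom ℚ ℝ V V) _ _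
        rw [e2, LinearMap.sum_apply]
      have e3 : ∀ σ : Perm (Fin n), (ρ (dg σ)).baseChange ℝ v = v := hv
      rw [e1, Finset.sum_congr rfl fun σ _ => e3 σ, Finset.sum_const, Finset.card_univ,
        ← Nat.cast_smul_eq_nsmul ℚ, smul_smul, inv_mul_cancel₀, one_smul]
      exact_mod_cast Fintype.card_ne_zero
    obtain ⟨w, hw⟩ := h1 v
    rw [h2] at hw
    have hw0 : w ≠ 0 := by
      rintro rfl
      exact hv0 (by rw [← hw, map_zero])
    have h3 : w = ∑ i, B.repr w i • B i := (B.sum_repr w).symm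
    have h4 : v = ∑ i, B.repr w i • ((1 : ℝ) ⊗ₜ[ℚ] (f i : V)) := by
      rw [← hw]
      conv_lhs => rw [h3]
      rw [map_sum]
      exact Finset.sum_congr rfl fun i _ => by rw [map_smul, hB]
    have h5 : qR v v = ∑ i, (q (f i) (f i) : ℝ) * (B.repr w i) ^ 2 := by
      rw [h4, map_sum]
      refine Finset.sum_congr rfl fun i _ => ?_
      rw [map_sum qR, LinearMap.sum_apply, Finset.sum_eq_single i]
      · rw [map_smul, map_smul, LinearMap.smul_apply, hqR, smul_eq_mul, smul_eq_mul]
        ring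
      · intro j _ hj
        rw [map_smul, map_smul, LinearMap.smul_apply, hqR, hfo j i hj]
        simp
      · intro h
        exact absurd (Finset.mem_univ i) h
    rw [h5]
    have hex : ∃ i, B.repr w i ≠ 0 := by
      by_contra h0
      push Not at h0
      apply hw0
      apply B.repr.injective
      ext i
      rw [h0 i, map_zero]
      rfl
    obtain ⟨i, hi⟩ := hex
    refine Finset.sum_pos' (fun i _ => mul_nonneg (by exact_mod_cast (hfpos i).le) (sq_nonneg _))
      ⟨i, Finset.mem_univ i, mul_pos (by exact_mod_cast hfpos i) (by positivity)⟩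

/-- **Invariant forms modulo a radical.** -/
theorem pos_mod {H : Type*} [AddCommGroup H] [Module ℚ H]
    (ρ : Representation ℚ (Perm (Fin n × Bool)) H) (P R : Submodule ℚ H)
    (hP : ∀ g, ∀ v ∈ P, ρ g v ∈ P) (hR : ∀ g, ∀ v ∈ R, ρ g v ∈ R)
    (q : LinearMap.BilinForm ℚ H) (hsym : ∀ x ∈ P, ∀ y ∈ P, q x y = q y x)
    (hinv : ∀ g, ∀ x ∈ P, ∀ y ∈ P, q (ρ g x) (ρ g y) = q x y)
    (hrad : ∀ x ∈ P, ∀ r ∈ R, r ∈ P → q x r = 0)
    (hpos : ∀ v ∈ P, v ∉ R → (∀ σ : Perm (Fin n), ρ (dg σ) v - v ∈ R) → 0 < q v v) :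
    ∀ x ∈ P, x ∉ R → 0 < q x x := by
  classical
  intro x hx hxR
  let V : Submodule ℚ H := Submodule.span ℚ (Set.range fun g => ρ g x)
  have : FiniteDimensional ℚ V := FiniteDimensional.span_of_finite ℚ (Set.finite_range _)
  have hVP : V ≤ P := Submodule.span_le.2 (by rintro _ ⟨g, rfl⟩; exact hP g x hx)
  have hV : ∀ g, ∀ v ∈ V, ρ g v ∈ V := by
    intro g v hv
    induction hv using Submodule.span_induction with
    | mem y hy =>
      obtain ⟨h, rfl⟩ := hy
      refine Submodule.subset_span ⟨g * h, ?_⟩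
      change ρ (g * h) x = ρ g (ρ h x)
      rw [map_mul, Module.End.mul_apply]
    | zero => rw [map_zero]; exact Submodule.zero_mem _
    | add y z _ _ hy hz => rw [map_add]; exact Submodule.add_mem _ hy hz
    | smul c y _ hy => rw [map_smul]; exact Submodule.smul_mem _ _ hy
  let RV : Submodule ℚ V := R.comap V.subtype
  let ρV : Perm (Fin n × Bool) → (V →ₗ[ℚ] V) := fun g => (ρ g).restrict (hV g)
  let ρQ : Representation ℚ (Perm (Fin n × Bool)) (V ⧸ RV) :=
    { toFun := fun g => RV.mapQ RV (ρV g) fun v hv => hR g v hv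
      map_one' := by
        ext v
        change RV.mkQ (ρV 1 v) = RV.mkQ v
        congr 1
        apply Subtype.ext
        change ρ 1 (v : H) = v
        rw [map_one, Module.End.one_apply]
      map_mul' := fun g h => by
        ext v
        change RV.mkQ (ρV (g * h) v) = RV.mkQ (ρV g (ρV h v))
        congr 1
        apply Subtype.ext
        change ρ (g * h) (v : H) = ρ g (ρ h v)
        rw [map_mul, Module.End.mul_apply] }
  let q₁ : V →ₗ[ℚ] V →ₗ[ℚ] ℚ := (q.domRestrict₁₂ V V)
  have hq₁ : ∀ v w : V, q₁ v w = q v w := fun _ _ => rfl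
  let q₂ : V →ₗ[ℚ] (V ⧸ RV) →ₗ[ℚ] ℚ :=
    { toFun := fun v => RV.liftQ (q₁ v) fun r hr => hrad v (hVP v.2) r hr (hVP r.2)
      map_add' := fun v w => by
        ext y
        change q₁ (v + w) y = q₁ v y + q₁ w y
        rw [map_add, LinearMap.add_apply]
      map_smul' := fun c v => by
        ext y
        change q₁ (c • v) y = c • q₁ v y
        rw [map_smul, LinearMap.smul_apply] }
  let qQ : LinearMap.BilinForm ℚ (V ⧸ RV) := RV.liftQ q₂ (by
    intro r hr
    rw [LinearMap.mem_ker]
    ext y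
    change q₁ r y = 0
    rw [hq₁, hsym _ (hVP r.2) _ (hVP y.2)]
    exact hrad y (hVP y.2) r hr (hVP r.2))
  have hqQ : ∀ v w : V, qQ (RV.mkQ v) (RV.mkQ w) = q v w := fun _ _ => rfl
  have key := pos_rat ρQ qQ (fun a b => by
      obtain ⟨v, rfl⟩ := RV.mkQ_surjective a
      obtain ⟨w, rfl⟩ := RV.mkQ_surjective b
      rw [hqQ, hqQ]
      exact hsym _ (hVP v.2) _ (hVP w.2))
    (fun g a b => by
      obtain ⟨v, rfl⟩ := RV.mkQ_surjective a
      obtain ⟨w, rfl⟩ := RV.mkQ_surjective b
      exact hinv g _ (hVP v.2) _ (hVP w.2))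
    (fun a ha hinva => by
      obtain ⟨v, rfl⟩ := RV.mkQ_surjective a
      rw [hqQ]
      refine hpos _ (hVP v.2) (fun h => ha ?_) fun σ => ?_
      · exact (Submodule.Quotient.mk_eq_zero _).2 h
      · have h1 : RV.mkQ (ρV (dg σ) v) = RV.mkQ v := hinva σ
        rw [← sub_eq_zero, ← map_sub] at h1
        exact (Submodule.Quotient.mk_eq_zero RV).1 h1)
  have hxV : x ∈ V := Submodule.subset_span ⟨1, by
    change ρ 1 x = x
    rw [map_one, Module.End.one_apply]⟩
  exact key (RV.mkQ ⟨x, hxV⟩) fun h => hxR ((Submodule.Quotient.mk_eq_zero RV).1 h)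

end Pool.Agent.Q55.Sy
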